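import Pool.Agent.helper93.VN.SpecL
import Pool.Agent.helper26.VQ.RFFa

/-!
# MP_07c750_an, project VN, row LFK (what is used of the flow)
-/

set_option autoImplicit false

open scoped MatrixGroups ContDiff Topology UpperHalfPlane ComplexConjugate ENNReal
open UpperHalfPlane MeasureTheory Filter Set

namespace Pool.Agent.VN

open Pool.Agent.RS Pool.Agent.VQ
open Pool.Agent.VQE (nm)

noncomputable section

theorem LFK_pot {Γ : Subgroup SL(2, ℝ)} {k : ℝ} {B : ℕ → ℝ} {U : ℍ → ℝ} (h : PotN Γ k B U) : Pot Γ (1 / k + 1) B U where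
  smooth := h.smooth
  inv := h.inv
  bd := h.bd
  near := by
    intro g v hv n hn
    have h1 : ContDiffAt ℝ n (Ug U g) v := (FE4_at U h.smooth g v hv).of_le (by
      exact_mod_cast le_top)
    have h2 : ContDiffAt ℝ n (fun _ : ℂ => (1 : ℝ)) v := contDiffAt_const
    have h3 : iteratedFDeriv ℝ n (fun w => Ug U g w - 1) v = iteratedFDeriv ℝ n (Ug U g) v - iteratedFDeriv ℝ n (fun _ : ℂ => (1 : ℝ)) v :=
      iteratedFDeriv_sub_apply h1 h2
    rw [h3]
    refine (norm_sub_le _ _).trans (add_le_add (h.up g v hv n hn) ?_)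
    rcases Nat.eq_zero_or_pos n with h0 | h0
    · subst h0
      rw [norm_iteratedFDeriv_zero]
      simp
    · rw [iteratedFDeriv_const_of_ne h0.ne']
      simp

/-- bounded and Lipschitz functions -/
def LFK_L (Γ : Subgroup SL(2, ℝ)) (k : ℝ) (B : ℕ → ℝ) (f : (ℍ → ℝ) → ℝ → SL(2, ℝ) → ℝ) : Prop :=
  ∃ C : ℝ, 0 ≤ C ∧ ∀ U, PotN Γ k B U → (∀ (E : ℝ) (g : SL(2, ℝ)), |E| ≤ k → |f U E g| ≤ C) ∧
    ∀ (E E' : ℝ) (g y : SL(2, ℝ)), |E| ≤ k → |E'| ≤ k → nm y ≤ 1 / 10 → |f U E' (g * y) - f U E g| ≤ C * (nm y + |E' - E|)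

theorem LFK_nm (y : SL(2, ℝ)) (E E' : ℝ) : 0 ≤ nm y + |E' - E| :=
  add_nonneg ((abs_nonneg _).trans (FE4_nm y).1) (abs_nonneg _)

section clos
variable {Γ : Subgroup SL(2, ℝ)} {k : ℝ} {B : ℕ → ℝ} {f f' : (ℍ → ℝ) → ℝ → SL(2, ℝ) → ℝ}

theorem LFK_const (c : ℝ) : LFK_L Γ k B (fun _ _ _ => c) := by
  refine ⟨|c|, abs_nonneg _, fun U _ => ⟨fun E g _ => le_refl _, fun E E' g y _ _ _ => ?_⟩⟩
  rw [sub_self, abs_zero]
  exact mul_nonneg (abs_nonneg _) (LFK_nm _ _ _)

theorem LFK_add (h : LFK_L Γ k B f) (h' : LFK_L Γ k B f') : LFK_L Γ k B (fun U E g => f U E g + f' U E g) := by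
  obtain ⟨C, hC, h⟩ := h
  obtain ⟨C', hC', h'⟩ := h'
  refine ⟨C + C', by positivity, fun U hU => ⟨fun E g hE => ?_, fun E E' g y hE hE' hy => ?_⟩⟩
  · exact (abs_add_le _ _).trans (add_le_add ((h U hU).1 E g hE) ((h' U hU).1 E g hE))
  · have e : f U E' (g * y) + f' U E' (g * y) - (f U E g + f' U E g) = (f U E' (g * y) - f U E g) + (f' U E' (g * y) - f' U E g) := by ring
    rw [e, add_mul]
    exact (abs_add_le _ _).trans (add_le_add ((h U hU).2 E E' g y hE hE' hy) ((h' U hU).2 E E' g y hE hE' hy))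

theorem LFK_mul (h : LFK_L Γ k B f) (h' : LFK_L Γ k B f') : LFK_L Γ k B (fun U E g => f U E g * f' U E g) := by
  obtain ⟨C, hC, h⟩ := h
  obtain ⟨C', hC', h'⟩ := h'
  refine ⟨2 * C * C', by positivity, fun U hU => ⟨fun E g hE => ?_, fun E E' g y hE hE' hy => ?_⟩⟩
  · rw [abs_mul]
    have h1 := mul_le_mul ((h U hU).1 E g hE) ((h' U hU).1 E g hE) (abs_nonneg _) hC
    have h2 : 0 ≤ C * C' := by positivity
    linarith
  · have e : f U E' (g * y) * f' U E' (g * y) - f U E g * f' U E g =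
        f U E' (g * y) * (f' U E' (g * y) - f' U E g) + (f U E' (g * y) - f U E g) * f' U E g := by ring
    rw [e]
    refine (abs_add_le _ _).trans ?_
    rw [abs_mul, abs_mul]
    have h1 := mul_le_mul ((h U hU).1 E' (g * y) hE') ((h' U hU).2 E E' g y hE hE' hy) (abs_nonneg _) hC
    have h2 := mul_le_mul ((h U hU).2 E E' g y hE hE' hy) ((h' U hU).1 E g hE) (abs_nonneg _) (mul_nonneg hC (LFK_nm y E E'))
    linarith

theorem LFK_inv (h : LFK_L Γ k B f) (m : ℝ) (hm : 0 < m) (hf : ∀ U, PotN Γ k B U → ∀ (E : ℝ) (g : SL(2, ℝ)), |E| ≤ k → m ≤ f U E g) :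
    LFK_L Γ k B (fun U E g => (f U E g)⁻¹) := by
  obtain ⟨C, hC, h⟩ := h
  refine ⟨m⁻¹ + C * (m⁻¹ * m⁻¹), by positivity, fun U hU => ⟨fun E g hE => ?_, fun E E' g y hE hE' hy => ?_⟩⟩
  · have h1 := hf U hU E g hE
    rw [abs_of_pos (inv_pos.2 (hm.trans_le h1))]
    have h2 := inv_anti₀ hm h1
    have h3 : 0 ≤ C * (m⁻¹ * m⁻¹) := by positivity
    linarith
  · have h1 := hf U hU E g hE
    have h1' := hf U hU E' (g * y) hE'
    have h2 := inv_anti₀ hm h1
    have h2' := inv_anti₀ hm h1'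
    have h4 : 0 < f U E g := hm.trans_le h1
    have h4' : 0 < f U E' (g * y) := hm.trans_le h1'
    have e : (f U E' (g * y))⁻¹ - (f U E g)⁻¹ = -((f U E' (g * y) - f U E g) * ((f U E' (g * y))⁻¹ * (f U E g)⁻¹)) := by
      field_simp
      ring
    rw [e, abs_neg, abs_mul, abs_of_pos (mul_pos (inv_pos.2 h4') (inv_pos.2 h4))]
    have h5 := mul_le_mul ((h U hU).2 E E' g y hE hE' hy) (mul_le_mul h2' h2 (inv_nonneg.2 h4.le) (inv_nonneg.2 hm.le))
      (mul_nonneg (inv_nonneg.2 h4'.le) (inv_nonneg.2 h4.le)) (mul_nonneg hC (LFK_nm y E E'))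
    have h6 : 0 ≤ m⁻¹ * (nm y + |E' - E|) := mul_nonneg (inv_nonneg.2 hm.le) (LFK_nm y E E')
    linarith

theorem LFK_congr (h : LFK_L Γ k B f) (hf : ∀ U E g, f' U E g = f U E g) : LFK_L Γ k B f' := by
  have e : f' = f := by
    funext U E g
    exact hf U E g
  rw [e]
  exact h

end clos

theorem LFK_a {k E u : ℝ} (hu : 8 * k ≤ u) (hE : |E| ≤ k) : 6 * k ≤ u + 2 * E := by
  obtain ⟨h1, h2⟩ := abs_le.1 hE
  linarith

theorem LFK_proof (hNUB : NUB_stmt) (hNJW : NJW_stmt) (hNDN : NDN_stmt) (hLVS : LVS_stmt) (hFLBN : FLBN_stmt) : LFK_stmt := by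
  intro Γ k B hΓ hk
  obtain ⟨C0, hC0, hN⟩ := hNUB k hk
  have hδ : 0 < 1 / k + 1 := by positivity
  have hnm : ∀ y : SL(2, ℝ), 0 ≤ nm y := fun y => (abs_nonneg _).trans (FE4_nm y).1
  have hrr : ∀ U, PotN Γ k B U → ∀ (E : ℝ) (g : SL(2, ℝ)), |E| ≤ k → 6 * k ≤ rho U E g ^ 2 := by
    intro U hU E g hE
    rw [((hN Γ B U hU).2.2.1 E g hE).2.2.1]
    exact LFK_a (hU.lo _) hE
  -- the building blocks
  have hn1 : LFK_L Γ k B (fun U _ g => n1 U g) := by
    refine ⟨C0 + 20 * (1 / k + 1), by positivity, fun U hU => ⟨fun E g _ => ?_, fun E E' g y _ _ hy => ?_⟩⟩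
    · have := ((hN Γ B U hU).2.1 g).2.1
      linarith
    · have h1 := (RFF_dif Γ _ B U (LFK_pot hU) hδ g y hy).1
      have h2 := abs_nonneg (E' - E)
      nlinarith [hnm y]
  have hn2 : LFK_L Γ k B (fun U _ g => n2 U g) := by
    refine ⟨C0 + 20 * (1 / k + 1), by positivity, fun U hU => ⟨fun E g _ => ?_, fun E E' g y _ _ hy => ?_⟩⟩
    · have := ((hN Γ B U hU).2.1 g).2.2.1
      linarith
    · have h1 := (RFF_dif Γ _ B U (LFK_pot hU) hδ g y hy).2.1
      have h2 := abs_nonneg (E' - E)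
      nlinarith [hnm y]
  have hhs : ∀ i j, LFK_L Γ k B (fun U _ g => hess U g i j) := by
    intro i j
    refine ⟨C0 + 40 * (1 / k + 1), by positivity, fun U hU => ⟨fun E g _ => ?_, fun E E' g y _ _ hy => ?_⟩⟩
    · have := ((hN Γ B U hU).2.1 g).2.2.2.1 i j
      linarith
    · have h1 := (RFF_dif Γ _ B U (LFK_pot hU) hδ g y hy).2.2 i j
      have h2 := abs_nonneg (E' - E)
      nlinarith [hnm y]
  have ha : LFK_L Γ k B (fun U E g => rho U E g ^ 2) := by
    refine ⟨C0 + 2 * k + 20 * (1 / k + 1) + 2, by positivity, fun U hU => ⟨fun E g hE => ?_, fun E E' g y hE hE' hy => ?_⟩⟩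
    · change |rho U E g ^ 2| ≤ _
      rw [((hN Γ B U hU).2.2.1 E g hE).2.2.1]
      have h1 := ((hN Γ B U hU).2.1 g).1
      have h2 := abs_add_le (U (g • I)) (2 * E)
      rw [abs_mul, abs_of_pos (two_pos : (0 : ℝ) < 2)] at h2
      linarith
    · change |rho U E' (g * y) ^ 2 - rho U E g ^ 2| ≤ _
      rw [((hN Γ B U hU).2.2.1 E g hE).2.2.1, ((hN Γ B U hU).2.2.1 E' (g * y) hE').2.2.1]
      have h1 := (FE4_UL Γ _ B U (LFK_pot hU) hδ g y).1
      have h2 := abs_add_le (U ((g * y) • I) - U (g • I)) (2 * (E' - E))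
      rw [abs_mul, abs_of_pos (two_pos : (0 : ℝ) < 2)] at h2
      have e : U ((g * y) • I) + 2 * E' - (U (g • I) + 2 * E) = U ((g * y) • I) - U (g • I) + 2 * (E' - E) := by ring
      rw [e]
      have h3 := abs_nonneg (E' - E)
      have h4 := mul_nonneg hk.le h3
      have h5 := mul_nonneg hk.le (hnm y)
      nlinarith [hnm y]
  have hr : LFK_L Γ k B (fun U E g => rho U E g) := by
    obtain ⟨Ca, hCa, ha⟩ := ha
    refine ⟨C0 + Ca * C0, by positivity, fun U hU => ⟨fun E g hE => ?_, fun E E' g y hE hE' hy => ?_⟩⟩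
    · obtain ⟨h1, h2, -⟩ := (hN Γ B U hU).2.2.1 E g hE
      have h3 : 0 < rho U E g := lt_of_lt_of_le (by positivity) h1
      rw [abs_of_pos h3]
      have h4 : 0 ≤ Ca * C0 := by positivity
      linarith
    · obtain ⟨h1, -, -⟩ := (hN Γ B U hU).2.2.1 E g hE
      obtain ⟨h1', -, -⟩ := (hN Γ B U hU).2.2.1 E' (g * y) hE'
      have hC0p : 0 < C0 := by linarith
      have h3 := (ha U hU).2 E E' g y hE hE' hy
      have h4 : |rho U E' (g * y) ^ 2 - rho U E g ^ 2| = |rho U E' (g * y) - rho U E g| * (rho U E' (g * y) + rho U E g) := by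
        have h5 : 0 < rho U E' (g * y) + rho U E g := by
          have := one_div_pos.2 hC0p
          linarith
        rw [show rho U E' (g * y) ^ 2 - rho U E g ^ 2 = (rho U E' (g * y) - rho U E g) * (rho U E' (g * y) + rho U E g) by ring,
          abs_mul, abs_of_pos h5]
      rw [h4] at h3
      have h6 : |rho U E' (g * y) - rho U E g| * (1 / C0) ≤ |rho U E' (g * y) - rho U E g| * (rho U E' (g * y) + rho U E g) :=
        mul_le_mul_of_nonneg_left (by
          have := one_div_pos.2 hC0p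
          linarith) (abs_nonneg _)
      have h7 : |rho U E' (g * y) - rho U E g| ≤ Ca * (nm y + |E' - E|) * C0 := by
        have h8 := h6.trans h3
        rw [mul_one_div, div_le_iff₀ hC0p] at h8
        exact h8
      have h9 := mul_nonneg hC0p.le (LFK_nm y E E')
      nlinarith
  have hri : LFK_L Γ k B (fun U E g => (rho U E g)⁻¹) := LFK_inv hr (1 / C0) (by positivity) (fun U hU E g hE => ((hN Γ B U hU).2.2.1 E g hE).1)
  have hai : LFK_L Γ k B (fun U E g => (rho U E g ^ 2)⁻¹) := LFK_inv ha (6 * k) (by positivity) hrr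
  have hkap : LFK_L Γ k B (fun U E g => kap U E g) := by
    refine LFK_congr (LFK_mul (LFK_const (1 / 2)) (LFK_mul hn2 hri)) (fun U E g => ?_)
    unfold kap
    rw [div_eq_mul_inv, mul_inv]
    ring
  have hKg : LFK_L Γ k B (fun U E g => Kg U E g) := by
    refine LFK_congr (LFK_mul (LFK_mul (LFK_const (-1)) (LFK_add (LFK_add (LFK_const 1) (LFK_mul (LFK_mul (LFK_const (1 / 2)) (LFK_add (hhs 0 0) (hhs 1 1))) hai))
      (LFK_mul (LFK_mul (LFK_const (-(1 / 2))) (LFK_add (LFK_mul hn1 hn1) (LFK_mul hn2 hn2))) (LFK_mul hai hai)))) hai) (fun U E g => ?_)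
    unfold Kg
    simp only [div_eq_mul_inv, mul_inv]
    rw [show rho U E g ^ 4 = rho U E g ^ 2 * rho U E g ^ 2 by ring, mul_inv]
    ring
  have hfq : LFK_L Γ k B (fun U E g => fq U E g) := by
    refine LFK_congr (LFK_mul (LFK_const (-1)) (LFK_mul ha hKg)) (fun U E g => ?_)
    unfold fq
    ring
  have hfp : LFK_L Γ k B (fun U E g => fp U E g) := by
    refine LFK_congr (LFK_mul (LFK_const 2) (LFK_mul hkap hai)) (fun U E g => ?_)
    unfold fp
    rw [div_eq_mul_inv]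
    ring
  obtain ⟨c1, hc1, h1⟩ := hr
  obtain ⟨c2, hc2, h2⟩ := ha
  obtain ⟨c3, hc3, h3⟩ := hfq
  obtain ⟨c4, hc4, h4⟩ := hkap
  obtain ⟨c5, hc5, h5⟩ := hn1
  obtain ⟨c6, hc6, h6⟩ := hfp
  have hk1 : 0 < 1 / (6 * k) := by positivity
  have hk2 : 0 < 1 / (6 * k * k) := by positivity
  set C : ℝ := C0 + 1 / (6 * k) + 1 / (6 * k * k) + c1 + c2 + c3 + c4 + c5 + c6 with hC
  have hC1 : 1 ≤ C := by linarith
  have hCp : 0 < C := by linarith
  refine ⟨C, hC1, fun D hD => ?_⟩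
  have hU := hD.pot
  have hlow : ∀ m : ℝ, 0 < m → 1 / m ≤ C → 1 / C ≤ m := by
    intro m hm h
    rw [div_le_iff₀ hm] at h
    rw [div_le_iff₀ hCp]
    linarith
  have hEL : ∀ (c : ℝ) (E E' : ℝ) (y : SL(2, ℝ)) (z : ℝ), c ≤ C → |z| ≤ c * (nm y + |E' - E|) → |z| ≤ C * (nm y + |E' - E|) :=
    fun c E E' y z hc hz => hz.trans (mul_le_mul_of_nonneg_right hc (LFK_nm y E E'))
  refine ⟨hk, hC1, ?_, ?_, ?_, hD.fl0, ?_, hD.cfl, ?_, ?_⟩
  · intro E g hE
    obtain ⟨r1, r2, r3, r4, r5, r6⟩ := (hN Γ B D.U hU).2.2.1 E g hE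
    have r7 := hrr D.U hU E g hE
    have r8 := hU.neg E g hE
    have r9 := (h2 D.U hU).1 E g hE
    have r10 := (h3 D.U hU).1 E g hE
    refine ⟨?_, by linarith, ?_, ?_, ?_, ?_⟩
    · refine le_trans ?_ r1
      exact one_div_le_one_div_of_le (by linarith) (by linarith)
    · exact hlow _ (by unfold fa; linarith) (by
        unfold fa
        have := one_div_le_one_div_of_le (by positivity : 0 < 6 * k) r7
        linarith)
    · have := le_abs_self (rho D.U E g ^ 2)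
      unfold fa
      linarith
    · have r11 : 6 * k * k ≤ fq D.U E g := by
        unfold fq
        nlinarith
      exact hlow _ (by
        have : 0 < 6 * k * k := by positivity
        linarith) (by
        have := one_div_le_one_div_of_le (by positivity : 0 < 6 * k * k) r11
        linarith)
    · have := le_abs_self (fq D.U E g)
      linarith
  · intro E g hE
    have a1 := (h4 D.U hU).1 E g hE
    have a2 := (h5 D.U hU).1 E g hE
    have a3 := (h6 D.U hU).1 E g hE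
    refine ⟨by linarith, by linarith, by linarith⟩
  · intro E E' g y hE hE' hy
    refine ⟨hEL c1 E E' y _ (by linarith) ((h1 D.U hU).2 E E' g y hE hE' hy), hEL c4 E E' y _ (by linarith) ((h4 D.U hU).2 E E' g y hE hE' hy), ?_,
      hEL c2 E E' y _ (by linarith) ((h2 D.U hU).2 E E' g y hE hE' hy), hEL c3 E E' y _ (by linarith) ((h3 D.U hU).2 E E' g y hE hE' hy),
      hEL c6 E E' y _ (by linarith) ((h6 D.U hU).2 E E' g y hE hE' hy)⟩
    have a1 := hEL c5 E E y _ (by linarith) ((h5 D.U hU).2 E E g y hE hE hy)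
    rw [sub_self, abs_zero, add_zero] at a1
    exact a1
  · intro E s t g hE
    exact (hFLBN Γ k B D hΓ hD E hE).1 s t g
  · intro E g x b c hE hV t
    obtain ⟨j1, j2⟩ := hNJW Γ k B D hD E g x b c hE hV t
    refine ⟨j1, ?_, ?_⟩
    · have e : fq D.U E (D.fl E t g) * Jc D.U E (D.fl E t g) (b t) (c t) = -(rho D.U E (D.fl E t g) ^ 2 * Kg D.U E (D.fl E t g) * Jc D.U E (D.fl E t g) (b t) (c t)) := by
        unfold fq
        ring
      rw [e]
      exact j2
    · obtain ⟨r1, r2, r3, r4, r5, r6⟩ := (hN Γ B D.U hU).2.2.1 E (D.fl E t g) hE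
      have hρ : 0 < rho D.U E (D.fl E t g) := lt_of_lt_of_le (by positivity) r1
      have hXX : XX D.U E (D.fl E t g) = !![rho D.U E (D.fl E t g) / 2, kap D.U E (D.fl E t g) / 2; -(kap D.U E (D.fl E t g) / 2), -(rho D.U E (D.fl E t g) / 2)] := by
        unfold XX A0 K0
        ext i j
        fin_cases i <;> fin_cases j <;> simp <;> ring
      obtain ⟨-, -, -, d1, -⟩ := hNDN Γ k B D.U hU (fun s => D.fl E s g) t (rho D.U E (D.fl E t g)) (kap D.U E (D.fl E t g) / 2) (-(kap D.U E (D.fl E t g) / 2)) E hE (by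
        intro i j
        rw [← hXX]
        exact hD.dfl E t g hE i j)
      obtain ⟨d2, -, -⟩ := hV t _ _ _ _ rfl rfl rfl rfl
      have d3 := d2.div d1 hρ.ne'
      have e : ((-(kap D.U E (D.fl E t g) * (b t + c t)) + (n1 D.U (D.fl E t g) * x t - n2 D.U (D.fl E t g) * (b t + c t)) / (2 * rho D.U E (D.fl E t g))) * rho D.U E (D.fl E t g) -
          x t * ((n1 D.U (D.fl E t g) * rho D.U E (D.fl E t g) - n2 D.U (D.fl E t g) * (kap D.U E (D.fl E t g) / 2 + -(kap D.U E (D.fl E t g) / 2))) / (2 * rho D.U E (D.fl E t g)))) / rho D.U E (D.fl E t g) ^ 2 =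
          fp D.U E (D.fl E t g) * Jc D.U E (D.fl E t g) (b t) (c t) := by
        unfold fp Jc
        have r5' : n2 D.U (D.fl E t g) = 2 * (kap D.U E (D.fl E t g) * rho D.U E (D.fl E t g)) := by linarith
        rw [r5']
        field_simp
        ring
      rw [← e]
      exact d3
  · intro E γ x b c hE hcv
    exact hLVS Γ k B D hD E γ x b c hE hcv

end

end Pool.Agent.VN
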